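import Pool.Agent.Q27.LR.Hyp

/-!
# Finitely generated virtually free groups have property (LR)

Every finitely generated subgroup `H` of a finitely generated group `G` with a free subgroup of
finite index is a retract of some subgroup of finite index of `G` which contains `H`.  The group `G`
and the subgroup `H` may have torsion.
-/

set_option autoImplicit false

namespace Pool.Agent.Results.MP_a112e0_al.FinitelyGenerated

/-- Let `G` be a finitely generated group with a free subgroup of finite index, and let `H` be a
finitely generated subgroup of `G`.  Then there are a subgroup `K` of finite index of `G` with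
`H ≤ K` and a homomorphism `ρ : K → H` whose restriction to `H` is the identity. -/
theorem result (G : Type) [Group G] (hG : Group.FG G)
    (hF : ∃ F : Subgroup G, F.FiniteIndex ∧ IsFreeGroup F) (H : Subgroup G) (hH : H.FG) :
    ∃ K : Subgroup G, K.FiniteIndex ∧ ∃ hHK : H ≤ K, ∃ ρ : K →* H,
      ∀ h : H, ρ ⟨h, hHK h.2⟩ = h := by
  obtain ⟨F, hF1, hF2⟩ := hF
  exact Q27.LR.main G F hF2 H hH

end Pool.Agent.Results.MP_a112e0_al.FinitelyGenerated
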